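import Pool.Agent.Q4.JL.Main

/-!
# The limit of Jack-Laurent symmetric functions as `p₀` tends to infinity exists
-/

namespace Pool.Agent.Results.MP_80096b_al.LimitExists

open Filter Topology Bornology Q4.JL

/-- Let `k` be a complex number which is not rational, let `(lam, mu)` be any bipartition and let
`F` be its Jack-Laurent symmetric function, an element of the polynomial algebra in the `p a`,
`a` a nonzero integer, whose coefficients are rational functions of `p₀`. Then every coefficient
of `F` has a finite limit as `p₀` tends to infinity (in the complex plane). -/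
theorem result (k : ℂ) (hk : ∀ q : ℚ, k ≠ (q : ℂ)) (lam mu : YoungDiagram)
    (F : MvPolynomial Idx (RatFunc ℂ)) (hF : IsJackLaurent k lam mu F) (s : Idx →₀ ℕ) :
    ∃ L : ℂ, Tendsto (fun p₀ : ℂ => (F.coeff s).eval (RingHom.id ℂ) p₀) (cobounded ℂ) (𝓝 L) :=
  main hk hF s

end Pool.Agent.Results.MP_80096b_al.LimitExists
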